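import Mathlib
import Pool.Agent.H.MP_e77664_al.B
import Pool.Agent.H.MP_e77664_al.D

namespace Pool.Agent.H.MP_b4fb0e_al

open Pool.Agent.H.MP_e77664_al

abbrev P := ZMod 3 × ℕ

inductive Wd
  | nil (g : P)
  | cons (g : P) (i : Bool) (w : Wd)

namespace Wd

def sh (a : P) : Wd → Wd
  | nil g => nil (a + g)
  | cons g i w => cons (a + g) i w

def mul : Wd → Wd → Wd
  | nil g, b => sh g b
  | cons g i w, b => cons g i (mul w b)

def hd : Wd → P
  | nil g => g
  | cons g _ _ => g

def fl : Wd → Option Bool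
  | nil _ => none
  | cons _ i _ => some i

def len : Wd → ℕ
  | nil _ => 0
  | cons _ _ w => len w + 1

def lst : Wd → P
  | nil g => g
  | cons _ _ w => lst w

lemma mul_assoc' (a b c : Wd) : mul (mul a b) c = mul a (mul b c) := by
  induction a with
  | nil g => cases b <;> cases c <;> simp [mul, sh, add_assoc]
  | cons g i w ih => simp [mul, ih]

lemma len_mul (a b : Wd) : len (mul a b) = len a + len b := by
  induction a with
  | nil g => cases b <;> simp [mul, sh, len]
  | cons g i w ih => simp [mul, len, ih]; omega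

lemma canc (a a' b b' : Wd) (h : len a = len a') (e : mul a b = mul a' b') :
    lst a + hd b = lst a' + hd b' ∧ fl b = fl b' ∧ (hd b = hd b' → a = a' ∧ b = b') := by
  induction a generalizing a' with
  | nil g =>
    cases a' with
    | nil g' => cases b <;> cases b' <;> simp_all [mul, sh, lst, hd, fl] <;> grind
    | cons => simp [len] at h
  | cons g i w ih =>
    cases a' with
    | nil g' => simp [len] at h
    | cons g' i' w' =>
      simp only [mul, cons.injEq, len, add_left_inj] at h e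
      obtain ⟨h1, h2, h3⟩ := ih w' h e.2.2
      exact ⟨h1, h2, fun k => by simp [e.1, e.2.1, h3 k]⟩

end Wd

open Wd

def TA : Option Bool → List P
  | some true => [(0, 0), (1, 0), (0, 1), (0, 5)]
  | _ => [0]

def TB : Option Bool → List P
  | some false => [(0, 5), (0, 6), (2, 7), (0, 10), (1, 12), (0, 15), (0, 16),
      (0, 17), (0, 1), (2, 2)]
  | _ => [0]

def T (p q : Option Bool) (g : P) : Prop := ∃ a ∈ TA p, ∃ b ∈ TB q, g = a + b

def ok : Option Bool → Wd → Prop
  | p, .nil g => T p none g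
  | p, .cons g i w => T p (some i) g ∧ ok (some i) w

lemma ok_T {p : Option Bool} {w : Wd} (h : ok p w) : T p (fl w) (hd w) := by
  cases w; exacts [h, h.1]

lemma ok_mul {a b : Wd} (hb : ok none b) : ∀ {p : Option Bool}, ok p a → ok p (mul a b) := by
  induction a with
  | nil g =>
    rintro p ⟨x, hx, y, hy, rfl⟩
    obtain ⟨x', hx', y', hy', e⟩ := ok_T hb
    simp only [TA, TB, List.mem_singleton] at hx' hy
    have : T p (fl b) (x + y + hd b) := ⟨x, hx, y', hy', by rw [e, hy, hx', zero_add, add_zero]⟩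
    cases b
    exacts [this, ⟨this, hb.2⟩]
  | cons g i w ih => exact fun h => ⟨h.1, ih h.2⟩

def S : Type := {w // ok none w}

instance : Semigroup S where
  mul a b := ⟨mul a.1 b.1, ok_mul b.2 a.2⟩
  mul_assoc _ _ _ := Subtype.ext (mul_assoc' _ _ _)

lemma detB : ∀ q, ∀ b ∈ TB q, ∀ b' ∈ TB q, b.2 = b'.2 → b = b' := by decide

instance : UniqueProds S where
  uniqueMul_of_nonempty := fun {X Y} hX hY => by
    obtain ⟨a, ha, ha'⟩ := X.exists_max_image (fun a => toLex (len a.1, (lst a.1).2)) hX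
    obtain ⟨b, hb, hb'⟩ := Y.exists_max_image (fun a => toLex (len a.1, (hd a.1).2)) hY
    refine ⟨a, ha, b, hb, fun a' b' h1 h2 e => ?_⟩
    have e : mul a'.1 b'.1 = mul a.1 b.1 := congrArg Subtype.val e
    have e1 := congrArg len e
    have k1 := ha' a' h1
    have k2 := hb' b' h2
    simp only [len_mul, Prod.Lex.toLex_le_toLex] at e1 k1 k2
    obtain ⟨c1, c2, c3⟩ := canc _ _ _ _ (by omega) e
    have c4 := congrArg Prod.snd c1
    simp only [Prod.snd_add] at c4
    obtain ⟨x, hx, y, hy, e2⟩ := ok_T b.2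
    obtain ⟨x', hx', y', hy', e2'⟩ := ok_T b'.2
    simp only [TA, List.mem_singleton] at hx hx'
    rw [hx, zero_add] at e2
    rw [hx', zero_add] at e2'
    have := c3 (detB _ _ (e2' ▸ hy') _ (c2 ▸ e2 ▸ hy) (by omega))
    exact ⟨Subtype.ext this.1, Subtype.ext this.2⟩

lemma grp {D : Type} [DivisionRing D] (w h k : D) (b : ℕ → D) (hb : ∀ n, b n ≠ 0)
    (r1 : h * b 5 = b 6) (r2 : k * b 5 = b 10) (r3 : k * b 6 = h * b 10)
    (r4 : h * b 1 = w * b 2) (r5 : k * b 1 = b 6) (r6 : k * b 2 = b 7) (r7 : h * b 6 = w * b 7)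
    (r9 : k * b 7 = w * b 12) (r12 : k * b 12 = w * b 17) (r13 : k * b 10 = b 15)
    (r14 : h * b 15 = b 16) (r15 : h * b 16 = b 17) : w * (w * w) = 1 := by
  have c1 : ∀ x, k * (h * x) = h * (k * x) := fun x => by
    rw [← mul_assoc, ← mul_assoc, mul_right_cancel₀ (hb 5) (show k * h * b 5 = h * k * b 5 by
      rw [mul_assoc, mul_assoc, r1, r2, r3])]
  have c2 : ∀ x, w * (k * x) = k * (w * x) := fun x => by
    rw [← mul_assoc, ← mul_assoc, mul_right_cancel₀ (hb 2) (show w * k * b 2 = k * w * b 2 by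
      rw [mul_assoc, mul_assoc, r6, ← r7, ← r5, ← r4, c1])]
  refine mul_right_cancel₀ (hb 17) ?_
  rw [mul_assoc, mul_assoc, ← r12, c2, ← r9, c2, c2, ← r7, ← r1, one_mul, ← r15, ← r14, ← r13,
    ← r2, c1, c1, c1, c1]

def L (a : P) (h : a ∈ TA (some true)) : S :=
  ⟨.cons 0 true (.nil a), ⟨0, by simp [TA], 0, by simp [TB], rfl⟩, a, h, 0, by simp [TB], by simp⟩

def R (b : P) (h : b ∈ TB (some false)) : S :=
  ⟨.cons b false (.nil 0), ⟨0, by simp [TA], b, h, by simp⟩, 0, by simp [TA], 0, by simp [TB], rfl⟩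

theorem no3 : ¬ ∃ (D : Type) (_ : DivisionRing D) (f : MonoidAlgebra (ZMod 3) S →ₙ+* D),
    Function.Injective f := by
  classical
  rintro ⟨D, _, f, hf⟩
  let φ : S → D := fun s => f (.single s 1)
  have h0 : ∀ s, φ s ≠ 0 := fun s h => by simpa using hf (h.trans (map_zero f).symm)
  have h1 : ∀ s t, φ s * φ t = φ (s * t) := fun s t => by
    simp [φ, ← map_mul, MonoidAlgebra.single_mul_single]
  let a := φ (L (0, 0) (by decide))
  have h3 : (3 : D) = 0 := by
    refine mul_right_cancel₀ (h0 (L (0, 0) (by decide))) ?_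
    rw [show (3 : D) = 1 + 1 + 1 by norm_num, add_mul, add_mul, one_mul, ← map_add, ← map_add,
      ← MonoidAlgebra.single_add, ← MonoidAlgebra.single_add,
      show (1 + 1 + 1 : ZMod 3) = 0 from rfl]
    simp
  have key : ∀ x hx y hy x' hx' y' hy', x + y = x' + y' →
      a⁻¹ * φ (L x hx) * φ (R y hy) = a⁻¹ * φ (L x' hx') * φ (R y' hy') :=
    fun x hx y hy x' hx' y' hy' e => by
      rw [mul_assoc, mul_assoc, h1, h1]
      congr 2
      exact Subtype.ext (congrArg (fun g => Wd.cons 0 true (.cons g false (.nil 0))) e)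
  have key' : ∀ x hx y hy y' hy', x + y = y' → a⁻¹ * φ (L x hx) * φ (R y hy) = φ (R y' hy') :=
    fun x hx y hy y' hy' e => by
      rw [key x hx y hy (0, 0) (by decide) y' hy' (e.trans (zero_add _).symm),
        inv_mul_cancel₀ (h0 _), one_mul]
  let j : ℕ → ZMod 3 := fun n => if n ∈ [2, 7] then 2 else if n = 12 then 1 else 0
  have := grp (a⁻¹ * φ (L (1, 0) (by decide))) (a⁻¹ * φ (L (0, 1) (by decide)))
    (a⁻¹ * φ (L (0, 5) (by decide)))
    (fun n => if h : (j n, n) ∈ TB (some false) then φ (R _ h) else 1)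
    (fun n => by split_ifs; exacts [h0 _, one_ne_zero])
  simp only [dif_pos (show (j 1, 1) ∈ TB (some false) by decide),
    dif_pos (show (j 2, 2) ∈ TB (some false) by decide),
    dif_pos (show (j 5, 5) ∈ TB (some false) by decide),
    dif_pos (show (j 6, 6) ∈ TB (some false) by decide),
    dif_pos (show (j 7, 7) ∈ TB (some false) by decide),
    dif_pos (show (j 10, 10) ∈ TB (some false) by decide),
    dif_pos (show (j 12, 12) ∈ TB (some false) by decide),
    dif_pos (show (j 15, 15) ∈ TB (some false) by decide),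
    dif_pos (show (j 16, 16) ∈ TB (some false) by decide),
    dif_pos (show (j 17, 17) ∈ TB (some false) by decide)] at this
  have := this
    (key' _ _ _ _ _ _ (by decide)) (key' _ _ _ _ _ _ (by decide)) (key _ _ _ _ _ _ _ _ (by decide))
    (key _ _ _ _ _ _ _ _ (by decide)) (key' _ _ _ _ _ _ (by decide)) (key' _ _ _ _ _ _ (by decide))
    (key _ _ _ _ _ _ _ _ (by decide)) (key _ _ _ _ _ _ _ _ (by decide))
    (key _ _ _ _ _ _ _ _ (by decide)) (key' _ _ _ _ _ _ (by decide))
    (key' _ _ _ _ _ _ (by decide)) (key' _ _ _ _ _ _ (by decide))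
  generalize hw : a⁻¹ * φ (L (1, 0) (by decide)) = w at this
  have h4 : (w - 1) ^ 3 = 0 := by
    have e : (w - 1) ^ 3 = w * (w * w) - 1 + 3 * (w - w * w) := by noncomm_ring
    rw [e, this, h3]; simp
  have h5 := hf ((inv_mul_eq_one₀ (h0 _)).1 (hw.trans (sub_eq_zero.1 (pow_eq_zero_iff
    (three_ne_zero) |>.1 h4))))
  have := congrArg (fun s : S => (lst s.1).1) (MonoidAlgebra.single_left_injective one_ne_zero h5)
  exact absurd this (by decide)

abbrev F4 := QuadraticAlgebra (ZMod 2) 1 1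

instance : Fact (∀ r : ZMod 2, r ^ 2 ≠ 1 + 1 * r) := ⟨by decide⟩

abbrev K := HahnSeries ℤ F4

def zt (e : ZMod 3) : F4 := QuadraticAlgebra.omega ^ e.val

noncomputable def ka (g : P) : K := HahnSeries.single (g.2 : ℤ) (zt g.1)

lemma ka_add (g g' : P) : ka (g + g') = ka g * ka g' := by
  have : ∀ a b, zt (a + b) = zt a * zt b := by decide
  simp [ka, HahnSeries.single_mul_single, this]

lemma sep0 : ∀ p q, ∀ a ∈ TA p, ∀ b ∈ TB q, ∃ e, e ≠ (a + b).1 ∧ ∀ a' ∈ TA p, ∀ b' ∈ TB q,
    (a' + b').2 = (a + b).2 → a' + b' = a + b ∨ (a' + b').1 = e := by decide +kernel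

lemma sep (p q : Option Bool) (g : P) : ∃ l : K →+ ZMod 2, T p q g → ∀ g', T p q g' →
    l (ka g') = if g' = g then 1 else 0 := by
  by_cases h : T p q g
  swap
  · exact ⟨0, fun h' => absurd h' h⟩
  obtain ⟨a, ha, b, hb, rfl⟩ := h
  obtain ⟨e, h1, h2⟩ := sep0 p q a ha b hb
  refine ⟨AddMonoidHom.mk' (fun u => (u.coeff ((a + b).2 : ℤ) * zt (-e)).im)
    (by simp [add_mul]), ?_⟩
  rintro - _ ⟨a', ha', b', hb', rfl⟩
  have h3 : ∀ x e, (zt x * zt (-e)).im = if x = e then 0 else 1 := by decide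
  simp only [AddMonoidHom.mk'_apply, ka]
  by_cases h : (a' + b').2 = (a + b).2
  · rw [h, HahnSeries.coeff_single_same, h3]
    rcases h2 a' ha' b' hb' h with h4 | h4
    · rw [h4, if_neg h1.symm, if_pos rfl]
    · rw [if_pos h4, if_neg fun h5 => h1 (by rw [← h5, h4])]
  · rw [HahnSeries.coeff_single_of_ne (by omega), if_neg fun h5 => h (by rw [h5])]
    simp

def Ph {G : Type} [Mul G] (c : P → G) (s : Bool → G) : Wd → G
  | .nil g => c g
  | .cons g i w => c g * (s i * Ph c s w)

lemma Ph_mul {G : Type} [Semigroup G] {c : P → G} (hc : ∀ g g', c (g + g') = c g * c g')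
    (s : Bool → G) (a b : Wd) : Ph c s (mul a b) = Ph c s a * Ph c s b := by
  induction a with
  | nil g => cases b <;> simp [mul, sh, Ph, hc, mul_assoc]
  | cons g i w ih => simp only [Ph, mul, mul_assoc, ih]

section
variable {K : Type} [DivisionRing K] (ι : ZMod 2 →+* K) (l : Option Bool → Option Bool → P → K →+ ZMod 2)

def sg0 (i : Bool) (v : Option Bool × Wd → K) : Option Bool × Wd → K
  | (_, .nil _) => 0
  | (_, .cons _ j w) => if j = i then ι (l (some i) (fl w) (hd w) (v (some i, w))) else 0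

def sg (i : Bool) : AddMonoid.End (Option Bool × Wd → K) :=
  AddMonoidHom.mk' (sg0 ι l i) fun u v => by
    funext ⟨p, w⟩
    cases w <;> simp [sg0]
    split_ifs <;> simp

def v0 (K : Type) [DivisionRing K] : Option Bool × Wd → K
  | (_, .nil _) => 1
  | (_, .cons _ _ _) => 0

lemma tm (c : K) (v : Option Bool × Wd → K) (x : Option Bool × Wd) :
    Module.toAddMonoidEnd K _ c v x = c * v x := rfl

lemma sg_apply (i : Bool) (v : Option Bool × Wd → K) : sg ι l i v = sg0 ι l i v := rfl

open Classical in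
lemma key {ka : P → K} (hl : ∀ p q g, T p q g → ∀ g', T p q g' →
    l p q g (ka g') = if g' = g then 1 else 0) (u : Wd) : ∀ p w, ok p u → ok p w →
    l p (fl w) (hd w) (Ph (fun g => Module.toAddMonoidEnd K _ (ka g)) (sg ι l) u (v0 K) (p, w)) =
      if u = w then 1 else 0 := by
  induction u with
  | nil g =>
    intro p w h1 h2
    cases w with
    | nil g' => simpa [Ph, v0, fl, hd, tm] using hl p none g' h2 g h1
    | cons => simp [Ph, v0, tm]
  | cons g i u ih =>
    intro p w h1 h2
    cases w with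
    | nil g' => simp [Ph, sg_apply, sg0, tm]
    | cons g' j w =>
      simp only [Ph, AddMonoid.End.coe_mul, Function.comp_apply, tm, sg_apply]
      by_cases h : j = i
      · subst h
        rw [sg0, if_pos rfl, ih _ _ h1.2 h2.2]
        by_cases h3 : u = w
        · simpa [h3, fl, hd] using hl p (some j) g' h2.1 g h1.1
        · simp [h3]
      · simp [sg0, h, Ne.symm h]

lemma exG : ∃ (G : Type) (_ : Ring G) (io : K →+* G) (s : Bool → G)
    (ρ : G →+* AddMonoid.End (Option Bool × Wd → K)),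
    (∀ c, ρ (io c) = Module.toAddMonoidEnd K _ c) ∧ (∀ i, ρ (s i) = sg ι l i) ∧
      Nontrivial G ∧ Syl G := by
  have h01 : ∀ e : ZMod 2, e = 0 ∨ e = 1 := by decide
  let := Module.compHom K ι
  let D : Dat (ZMod 2) K Bool _ :=
    ⟨ι, fun _ _ => rfl, Module.Basis.ofVectorSpace _ K, 0, by simp⟩
  obtain ⟨_, d, hd'⟩ := D.wa
  obtain ⟨ρ, r1, r2⟩ := D.lift (Module.toAddMonoidEnd K (Option Bool × Wd → K)) (sg ι l)
    fun i e => by rcases h01 e with rfl | rfl <;> simp [D]
  exact ⟨_, _, D.io, D.s, ρ, r1, r2, inferInstance, hd'.syl⟩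

end

lemma exψ {k G R : Type} [Semiring k] [Mul G] [Ring R] (f : k →+* R) (g : G →ₙ* R)
    (h : ∀ c x, Commute (f c) x) : ∃ ψ : MonoidAlgebra k G →ₙ+* R,
      ∀ a c, ψ (.single a c) = f c * g a :=
  ⟨{ MonoidAlgebra.liftNC (f : k →+ R) g with
      map_mul' := fun a b => MonoidAlgebra.liftNC_mul f g a b fun _ => h _ _ },
    MonoidAlgebra.liftNC_single _ _⟩

theorem yes2 (K : Type) [DivisionRing K] (ι : ZMod 2 →+* K) (ka : P → K)
    (ka_add : ∀ g g', ka (g + g') = ka g * ka g')
    (sep : ∀ p q g, ∃ l : K →+ ZMod 2, T p q g → ∀ g', T p q g' →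
      l (ka g') = if g' = g then 1 else 0) :
    ∃ (D : Type) (_ : DivisionRing D) (f : MonoidAlgebra (ZMod 2) S →ₙ+* D),
      Function.Injective f := by
  classical
  have h01 : ∀ e : ZMod 2, e = 0 ∨ e = 1 := by decide
  choose l hl using sep
  obtain ⟨G, _, io, s, ρ, r1, r2, _, hG⟩ := exG ι l
  obtain ⟨E, _, f, hf, -⟩ := univ hG
  let φ : S →ₙ* G := ⟨fun x => Ph (fun g => io (ka g)) s x.1,
    fun a b => Ph_mul (by simp [ka_add]) _ _ _⟩
  obtain ⟨ψ, hψ⟩ := exψ (io.comp ι) φ fun c x => by rcases h01 c with rfl | rfl <;> simp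
  have h2 : ∀ u, ρ (Ph (fun g => io (ka g)) s u) =
      Ph (fun g => Module.toAddMonoidEnd K _ (ka g)) (sg ι l) u := fun u => by
    induction u <;> simp only [Ph, map_mul, *]
  have key2 : ∀ (s : S) u, l none (fl s.1) (hd s.1) (ρ (ψ u) (v0 K) (none, s.1)) = u.coeff s :=
    fun s u => by
      induction u using MonoidAlgebra.induction_linear with
      | zero => simp
      | add a b ha hb =>
        rw [map_add ψ, map_add ρ, MonoidAlgebra.coeff_add, Finsupp.add_apply, ← ha, ← hb,
          ← map_add (l none _ _)]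
        rfl
      | single t c =>
        rcases h01 c with rfl | rfl
        · simp
        · have : ψ (.single t 1) = φ t := by simp [hψ]
          rw [this, MonoidAlgebra.coeff_single, Finsupp.single_apply]
          exact (congrArg (fun x : AddMonoid.End _ => l none (fl s.1) (hd s.1)
            (x (v0 K) (none, s.1))) (h2 t.1)).trans ((key ι l hl _ _ _ t.2 s.2).trans
              (if_congr Subtype.ext_iff.symm rfl rfl))
  refine ⟨E, inferInstance, f.toNonUnitalRingHom.comp ψ,
    (injective_iff_map_eq_zero _).2 fun u hu => ?_⟩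
  have : ψ u = 0 := by_contra fun h => by
    have := hf.inj (A := Matrix.of fun (_ _ : Unit) => ψ u) (z := fun _ => 1) (fun r hr => by
      by_contra h0
      obtain rfl : r = 0 := by simpa using h0
      exact h (congrFun (congrFun hr.zero ()) ())) (funext fun _ => by
        simpa [Matrix.mulVec, dotProduct] using show f (ψ u) = 0 from hu)
    exact one_ne_zero (congrFun this ())
  ext s
  rw [← key2, this]; simp

theorem final : ∃ (S : Type) (_ : Semigroup S) (F₁ F₂ : Type) (_ : Field F₁) (_ : Field F₂),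
    NoZeroDivisors (MonoidAlgebra F₁ S) ∧ NoZeroDivisors (MonoidAlgebra F₂ S) ∧
    (∃ (D : Type) (_ : DivisionRing D) (f : MonoidAlgebra F₁ S →ₙ+* D), Function.Injective f) ∧
    ¬ ∃ (D : Type) (_ : DivisionRing D) (f : MonoidAlgebra F₂ S →ₙ+* D), Function.Injective f :=
  ⟨S, inferInstance, ZMod 2, ZMod 3, inferInstance, inferInstance, inferInstance, inferInstance,
    yes2 K (HahnSeries.C.comp (algebraMap (ZMod 2) F4)) ka ka_add sep, no3⟩

end Pool.Agent.H.MP_b4fb0e_al
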